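import Pool.Agent.R201.BratteliDefs

/-!
# A finite tail-invariant measure without a finite Perron eigenvalue

There is a stationary generalized Bratteli diagram with aperiodic irreducible incidence matrix and
infinite Perron eigenvalue that carries a tail-invariant probability measure; the measure has no
atoms and is positive on every cylinder set.
-/

set_option autoImplicit false
set_option linter.unusedSimpArgs false

open MeasureTheory Filter Topology Pool.Agent.R201.Bratteli

namespace Pool.Agent.Results.MP_17dcfb_an.FiniteMeasureExists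

/-- `F` is irreducible: for all `i, j` some power has a positive `(i, j)` entry -/
def IsIrreducible {V : Type} (F : V → V → ℕ) : Prop := ∀ v w, ∃ n, 0 < pow F n v w

/-- `gcd {n : (F ^ n)_{ii} > 0} = 1` for all `i` (the gcd is taken over `n ≥ 1`) -/
def IsAperiodic {V : Type} (F : V → V → ℕ) : Prop :=
  ∀ v, ∀ d : ℕ, (∀ n, 1 ≤ n → 0 < pow F n v v → d ∣ n) → d = 1

/-- the Perron eigenvalue `lim ((F ^ n)_{ij}) ^ (1 / n)` is infinite -/
def PerronInfinite {V : Type} (F : V → V → ℕ) : Prop :=
  ∀ v w, Tendsto (fun n : ℕ => ((pow F n v w : ℕ) : ℝ) ^ (1 / (n : ℝ))) atTop atTop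

/-! ### Powers -/

section
variable {V : Type} {F : V → V → ℕ}

lemma pow_succ_ge (hF : IsIncidence F) (n : ℕ) (v t w : V) :
    F v t * pow F n t w ≤ pow F (n + 1) v w := by
  have hfin : (Function.support fun t => F v t * pow F n t w).Finite := by
    refine (hF.finite_receive v).subset fun t ht => ?_
    simp only [Function.mem_support, ne_eq, mul_eq_zero, not_or] at ht
    exact ht.1
  show F v t * pow F n t w ≤ ∑ᶠ t, F v t * pow F n t w
  rw [finsum_eq_sum _ hfin]
  by_cases h : F v t * pow F n t w = 0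
  · rw [h]
    exact Nat.zero_le _
  · exact Finset.single_le_sum (f := fun t => F v t * pow F n t w) (fun _ _ => Nat.zero_le _)
      (hfin.mem_toFinset.2 h)

lemma pow_add_ge (hF : IsIncidence F) (m n : ℕ) (v t w : V) :
    pow F m v t * pow F n t w ≤ pow F (m + n) v w := by
  induction m generalizing v with
  | zero =>
    simp only [pow, zero_add]
    split_ifs with h
    · subst h
      simp
    · simp
  | succ m ih =>
    have hfin : ∀ k : V → ℕ, (Function.support fun s => F v s * k s).Finite := by
      intro k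
      refine (hF.finite_receive v).subset fun t ht => ?_
      simp only [Function.mem_support, ne_eq, mul_eq_zero, not_or] at ht
      exact ht.1
    rw [show m + 1 + n = (m + n) + 1 by omega]
    show (∑ᶠ s, F v s * pow F m s t) * pow F n t w ≤ ∑ᶠ s, F v s * pow F (m + n) s w
    rw [finsum_mul' _ _ (hfin _)]
    have e : ∀ k : V → ℕ, ∑ᶠ s, F v s * k s = ∑ s ∈ (hF.finite_receive v).toFinset, F v s * k s := by
      intro k
      refine finsum_eq_sum_of_support_subset _ fun s hs => ?_
      simp only [Function.mem_support, ne_eq, mul_eq_zero, not_or] at hs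
      simpa using hs.1
    have e2 : ∑ᶠ s, F v s * pow F m s t * pow F n t w = ∑ᶠ s, F v s * (pow F m s t * pow F n t w) :=
      finsum_congr fun s => mul_assoc _ _ _
    rw [e2, e, e]
    exact Finset.sum_le_sum fun s _ => Nat.mul_le_mul_left _ (ih s)

end

/-! ### The diagram -/

/-- The incidence matrix: the vertices are `(i, true)` (the ladder) and `(i, false)`. There are two
edges from `(i, true)` to `(i + 1, true)` and one from `(i, true)` to `(i, false)`; there are
`i + 2` loops at `(i, false)`, one edge from `(i, false)` to `(i ± 1, false)`, and one from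
`(0, false)` to `(0, true)`. -/
def G : ℕ × Bool → ℕ × Bool → ℕ
  | (j, true), (i, true) => if j = i + 1 then 2 else 0
  | (j, false), (i, true) => if j = i then 1 else 0
  | (j, true), (i, false) => if j = 0 ∧ i = 0 then 1 else 0
  | (j, false), (i, false) => if i = j then i + 2 else if i = j + 1 ∨ j = i + 1 then 1 else 0

lemma G_le (v w : ℕ × Bool) (h : G v w ≠ 0) : v.1 ≤ w.1 + 1 ∧ w.1 ≤ v.1 + 1 := by
  obtain ⟨j, b⟩ := v
  obtain ⟨i, c⟩ := w
  rcases b <;> rcases c <;> simp only [G] at h ⊢ <;> split_ifs at h <;> omega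

lemma G_isIncidence : IsIncidence G where
  countable := inferInstance
  infinite := inferInstance
  finite_emit := by
    intro w
    refine ((Set.finite_Iic (w.1 + 1)).prod (Set.finite_univ (α := Bool))).subset fun v hv => ?_
    exact ⟨(G_le v w hv).1, Set.mem_univ _⟩
  finite_receive := by
    intro v
    refine ((Set.finite_Iic (v.1 + 1)).prod (Set.finite_univ (α := Bool))).subset fun w hw => ?_
    exact ⟨(G_le v w hw).2, Set.mem_univ _⟩
  emits := by
    rintro ⟨i, b⟩
    rcases b
    · exact ⟨(i, false), by simp [G]⟩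
    · exact ⟨(i, false), by simp [G]⟩
  receives := by
    rintro ⟨i, b⟩
    rcases b
    · exact ⟨(i, false), by simp [G]⟩
    · rcases i with _ | i
      · exact ⟨(0, false), by simp [G]⟩
      · exact ⟨(i, true), by simp [G]⟩

lemma pow_one_pos {v w : ℕ × Bool} (h : G v w ≠ 0) : 0 < pow G 1 v w := by
  have h1 := pow_succ_ge G_isIncidence 0 v w w
  have h2 : pow G 0 w w = 1 := by simp [pow]
  rw [h2, mul_one, zero_add] at h1
  exact lt_of_lt_of_le (Nat.pos_of_ne_zero h) h1

lemma pow_pos_trans {v t w : ℕ × Bool} {m n : ℕ} (h1 : 0 < pow G m v t) (h2 : 0 < pow G n t w) :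
    0 < pow G (m + n) v w :=
  lt_of_lt_of_le (Nat.mul_pos h1 h2) (pow_add_ge G_isIncidence m n v t w)

/-- every vertex `(k, false)` can be reached from every vertex -/
lemma reach (k : ℕ) (w : ℕ × Bool) : ∃ n, 0 < pow G n (k, false) w := by
  have hdown : ∀ i j, ∃ n, 0 < pow G n (j, false) (j + i, false) := by
    intro i
    induction i with
    | zero => intro j; exact ⟨0, by simp [pow]⟩
    | succ i ih =>
      intro j
      obtain ⟨n, hn⟩ := ih (j + 1)
      refine ⟨1 + n, pow_pos_trans (pow_one_pos (w := (j + 1, false)) (by simp [G])) ?_⟩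
      rwa [show j + (i + 1) = j + 1 + i by omega]
  have hup : ∀ i j, ∃ n, 0 < pow G n (j + i, false) (j, false) := by
    intro i
    induction i with
    | zero => intro j; exact ⟨0, by simp [pow]⟩
    | succ i ih =>
      intro j
      obtain ⟨n, hn⟩ := ih j
      refine ⟨1 + n, pow_pos_trans (t := (j + i, false)) (pow_one_pos ?_) hn⟩
      simp [G, show ¬ (j + i = j + (i + 1)) by omega]
      omega
  have h1 : ∀ i, ∃ n, 0 < pow G n (k, false) (i, false) := by
    intro i
    rcases Nat.le_total i k with h | h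
    · obtain ⟨n, hn⟩ := hup (k - i) i
      exact ⟨n, by rwa [show i + (k - i) = k by omega] at hn⟩
    · obtain ⟨n, hn⟩ := hdown (i - k) k
      exact ⟨n, by rwa [show k + (i - k) = i by omega] at hn⟩
  obtain ⟨i, b⟩ := w
  rcases b
  · exact h1 i
  · obtain ⟨n, hn⟩ := h1 i
    exact ⟨n + 1, pow_pos_trans hn (pow_one_pos (by simp [G]))⟩

/-- every vertex can be reached from every vertex `(k, false)` -/
lemma reach' (k : ℕ) (v : ℕ × Bool) : ∃ n, 0 < pow G n v (k, false) := by
  obtain ⟨i, b⟩ := v
  rcases b
  · exact reach i _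
  · obtain ⟨n, hn⟩ := reach 0 (k, false)
    have h1 : 0 < pow G 1 (0, true) (0, false) := pow_one_pos (by simp [G])
    have h2 : ∀ i, 0 < pow G i (i, true) (0, true) := by
      intro i
      induction i with
      | zero => simp [pow]
      | succ i ih =>
        rw [add_comm i 1]
        exact pow_pos_trans (t := (i, true)) (pow_one_pos (by simp [G, add_comm])) ih
    exact ⟨i + (1 + n), pow_pos_trans (h2 i) (pow_pos_trans h1 hn)⟩

lemma pow_loop (k n : ℕ) : (k + 2) ^ n ≤ pow G n (k, false) (k, false) := by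
  induction n with
  | zero => simp [pow]
  | succ n ih =>
    have h1 := pow_succ_ge G_isIncidence n (k, false) (k, false) (k, false)
    have h2 : G (k, false) (k, false) = k + 2 := by simp [G]
    rw [h2] at h1
    calc (k + 2) ^ (n + 1) = (k + 2) * (k + 2) ^ n := by ring
      _ ≤ (k + 2) * pow G n (k, false) (k, false) := Nat.mul_le_mul_left _ ih
      _ ≤ _ := h1

lemma pow_big (k : ℕ) (v w : ℕ × Bool) : ∃ c, ∀ n, (k + 2) ^ n ≤ pow G (n + c) v w := by
  obtain ⟨a, ha⟩ := reach' k v
  obtain ⟨b, hb⟩ := reach k w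
  refine ⟨a + b, fun n => ?_⟩
  have h1 := pow_add_ge G_isIncidence a n v (k, false) (k, false)
  have h2 := pow_add_ge G_isIncidence (a + n) b v (k, false) w
  have h3 := pow_loop k n
  rw [show n + (a + b) = a + n + b by omega]
  calc (k + 2) ^ n = 1 * (k + 2) ^ n * 1 := by ring
    _ ≤ pow G a v (k, false) * pow G n (k, false) (k, false) * pow G b (k, false) w :=
        Nat.mul_le_mul (Nat.mul_le_mul ha h3) hb
    _ ≤ pow G (a + n) v (k, false) * pow G b (k, false) w := Nat.mul_le_mul_right _ h1
    _ ≤ _ := h2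

lemma G_irreducible : IsIrreducible G := by
  intro v w
  obtain ⟨c, hc⟩ := pow_big 0 v w
  exact ⟨0 + c, lt_of_lt_of_le (by norm_num) (hc 0)⟩

lemma G_aperiodic : IsAperiodic G := by
  intro v d hd
  obtain ⟨c, hc⟩ := pow_big 0 v v
  have h1 : d ∣ 1 + c := hd _ (by omega) (lt_of_lt_of_le (by norm_num) (hc 1))
  have h2 : d ∣ 2 + c := hd _ (by omega) (lt_of_lt_of_le (by norm_num) (hc 2))
  have h3 : d ∣ (2 + c) - (1 + c) := Nat.dvd_sub h2 h1
  rw [show (2 + c) - (1 + c) = 1 by omega] at h3
  exact Nat.dvd_one.1 h3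

lemma G_perron : PerronInfinite G := by
  intro v w
  rw [tendsto_atTop]
  intro C
  obtain ⟨k, hk⟩ := exists_nat_gt (max C 1)
  have hC1 : (0 : ℝ) < max C 1 := lt_of_lt_of_le one_pos (le_max_right _ _)
  obtain ⟨c, hc⟩ := pow_big k v w
  have hratio : 1 < ((k : ℝ) + 2) / max C 1 := by
    rw [one_lt_div hC1]
    linarith
  have h1 : Tendsto (fun n : ℕ => (((k : ℝ) + 2) / max C 1) ^ n) atTop atTop :=
    tendsto_pow_atTop_atTop_of_one_lt hratio
  filter_upwards [h1.eventually_ge_atTop (((k : ℝ) + 2) ^ c), eventually_ge_atTop (c + 1)] with n hn hnc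
  have h2 : (max C 1) ^ n ≤ ((pow G n v w : ℕ) : ℝ) := by
    have h3 := hc (n - c)
    rw [show n - c + c = n by omega] at h3
    have h4 : ((k : ℝ) + 2) ^ (n - c) ≤ ((pow G n v w : ℕ) : ℝ) := by exact_mod_cast h3
    refine le_trans ?_ h4
    rw [div_pow, le_div_iff₀ (pow_pos hC1 n)] at hn
    have h5 : ((k : ℝ) + 2) ^ n = ((k : ℝ) + 2) ^ (n - c) * ((k : ℝ) + 2) ^ c := by
      rw [← pow_add]
      congr 1
      omega
    rw [h5, mul_comm] at hn
    exact le_of_mul_le_mul_right hn (by positivity)
  have hn0 : (0 : ℝ) < n := by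
    have : 0 < n := by omega
    exact_mod_cast this
  calc C ≤ max C 1 := le_max_left _ _
    _ = ((max C 1) ^ n) ^ (1 / (n : ℝ)) := by
        rw [← Real.rpow_natCast, ← Real.rpow_mul hC1.le, mul_one_div_cancel hn0.ne', Real.rpow_one]
    _ ≤ _ := Real.rpow_le_rpow (by positivity) h2 (by positivity)

/-! ### The measure -/

/-- the two edges from `(j, true)` to `(j + 1, true)` -/
def lad (j : ℕ) (b : Bool) : Edge G :=
  ⟨((j, true), (j + 1, true), if b then 1 else 0), by rcases b <;> simp [G]⟩

lemma eq_lad (f : Edge G) (k : ℕ) (h : rng f = (k + 1, true)) : ∃ b, f = lad k b := by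
  obtain ⟨⟨w, v, c⟩, hc⟩ := f
  have h1 : v = (k + 1, true) := h
  subst h1
  obtain ⟨i, a⟩ := w
  rcases a
  · simp [G] at hc
  · by_cases h2 : k = i
    · subst h2
      have hc' : c < 2 := by simpa [G] using hc
      rcases (show c = 0 ∨ c = 1 by omega) with h3 | h3
      · subst h3
        exact ⟨false, rfl⟩
      · subst h3
        exact ⟨true, rfl⟩
    · simp [G, h2] at hc

lemma lad_inj {j : ℕ} {b c : Bool} (h : lad j b = lad j c) : b = c := by
  have h1 := congrArg (fun e => e.1.2.2) h
  rcases b <;> rcases c <;> simp [lad] at h1 ⊢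

instance : Countable (Edge G) := by
  unfold Edge
  infer_instance

/-- the fair coin -/
noncomputable def coin : Measure Bool := (PMF.uniformOfFintype Bool).toMeasure

instance : IsProbabilityMeasure coin := by
  unfold coin
  infer_instance

lemma coin_singleton (b : Bool) : coin {b} = 2⁻¹ := by
  unfold coin
  rw [PMF.toMeasure_apply_singleton _ _ (MeasurableSet.singleton b), PMF.uniformOfFintype_apply]
  simp

/-- fair coin tossing -/
noncomputable def β : Measure (ℕ → Bool) := Measure.infinitePi fun _ => coin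

instance : IsProbabilityMeasure β := by
  unfold β
  infer_instance

lemma β_cyl (n : ℕ) (b : ℕ → Bool) : β {ω | ∀ j < n, ω j = b j} = 2⁻¹ ^ n := by
  have h1 : {ω : ℕ → Bool | ∀ j < n, ω j = b j} = Set.pi (Finset.range n) (fun j => {b j}) := by
    ext ω
    simp [Set.mem_pi]
  rw [h1]
  unfold β
  rw [Measure.infinitePi_pi _ (fun i _ => MeasurableSet.singleton _)]
  simp [coin_singleton]

lemma β_singleton (b : ℕ → Bool) : β {b} = 0 := by
  have h1 : ∀ n : ℕ, β {b} ≤ 2⁻¹ ^ n := by
    intro n
    rw [← β_cyl n b]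
    refine measure_mono ?_
    intro ω hω j _
    rw [Set.mem_singleton_iff.1 hω]
  have h2 : Tendsto (fun n : ℕ => (2⁻¹ : ENNReal) ^ n) atTop (𝓝 0) :=
    ENNReal.tendsto_pow_atTop_nhds_zero_of_lt_one (by simp)
  exact le_antisymm (ge_of_tendsto' h2 h1) bot_le

/-- the paths that follow the edges number `0` of the ladder from level `m` on -/
def Idx (m : ℕ) : Type := {x : PathSpace G // ∀ i, m ≤ i → x.1 i = lad (i - m) false}

/-- the path that follows `x` up to level `m` and then the ladder according to `ω` -/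
def glue (m : ℕ) (x : Idx m) (ω : ℕ → Bool) : PathSpace G :=
  ⟨fun i => if i < m then x.1.1 i else lad (i - m) (ω (i - m)), by
    intro i
    beta_reduce
    rcases Nat.lt_or_ge (i + 1) m with h | h
    · rw [if_pos (by omega), if_pos h]
      exact x.1.2 i
    · rw [if_neg (show ¬ i + 1 < m by omega)]
      rcases Nat.lt_or_ge i m with h' | h'
      · rw [if_pos h', x.1.2 i, x.2 (i + 1) h]
        rfl
      · rw [if_neg (by omega), show i + 1 - m = i - m + 1 by omega]
        rfl⟩

lemma glue_lt {m : ℕ} (x : Idx m) (ω : ℕ → Bool) {i : ℕ} (h : i < m) :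
    (glue m x ω).1 i = x.1.1 i := if_pos h

lemma glue_ge {m : ℕ} (x : Idx m) (ω : ℕ → Bool) {i : ℕ} (h : m ≤ i) :
    (glue m x ω).1 i = lad (i - m) (ω (i - m)) := if_neg (not_lt.2 h)

lemma measurable_glue (m : ℕ) (x : Idx m) : Measurable (glue m x) := by
  refine Measurable.subtype_mk (measurable_pi_lambda _ fun i => ?_)
  by_cases h : i < m
  · simp only [h, if_true]
    exact measurable_const
  · simp only [h, if_false]
    exact (measurable_of_countable (fun b : Bool => lad (i - m) b)).comp (measurable_pi_apply _)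

lemma measurableSet_cyl (n : ℕ) (e : ℕ → Edge G) : MeasurableSet (cyl n e) := by
  have : cyl n e = ⋂ i : {i // i < n}, (fun x : PathSpace G => x.1 i) ⁻¹' {e i} := by
    ext x
    simp [cyl]
  rw [this]
  refine MeasurableSet.iInter fun i => ?_
  have h1 : Measurable (fun x : PathSpace G => x.1 (i : ℕ)) :=
    (measurable_pi_apply (i : ℕ)).comp measurable_subtype_coe
  exact h1 (by trivial)

/-- the law of `glue m x ω` -/
noncomputable def κ (m : ℕ) (x : Idx m) : Measure (PathSpace G) := β.map (glue m x)

lemma κ_apply (m : ℕ) (x : Idx m) {s : Set (PathSpace G)} (hs : MeasurableSet s) :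
    κ m x s = β (glue m x ⁻¹' s) := Measure.map_apply (measurable_glue m x) hs

instance (m : ℕ) (x : Idx m) : IsProbabilityMeasure (κ m x) :=
  Measure.isProbabilityMeasure_map (measurable_glue m x).aemeasurable

/-- the sum over all finite paths of length `m` that end at `(0, true)` -/
noncomputable def ν (m : ℕ) : Measure (PathSpace G) := Measure.sum (κ m)

lemma ν_apply (m : ℕ) {s : Set (PathSpace G)} (hs : MeasurableSet s) :
    ν m s = ∑' x, κ m x s := Measure.sum_apply _ hs

/-- replace the first `n` edges -/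
def put (n : ℕ) (e : ℕ → Edge G) (x : PathSpace G) (h : IsFinPath n e)
    (h' : 1 ≤ n → rng (e (n - 1)) = rng (x.1 (n - 1))) : PathSpace G :=
  ⟨fun i => if i < n then e i else x.1 i, by
    intro i
    beta_reduce
    rcases Nat.lt_or_ge (i + 1) n with h1 | h1
    · rw [if_pos (by omega), if_pos h1]
      exact h i h1
    · rw [if_neg (show ¬ i + 1 < n by omega)]
      rcases Nat.lt_or_ge i n with h2 | h2
      · have : i = n - 1 := by omega
        subst this
        rw [if_pos h2, h' (by omega), x.2]
      · rw [if_neg (by omega)]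
        exact x.2 i⟩

lemma put_lt {n : ℕ} {e : ℕ → Edge G} {x : PathSpace G} {h h'} {i : ℕ} (hi : i < n) :
    (put n e x h h').1 i = e i := if_pos hi

lemma put_ge {n : ℕ} {e : ℕ → Edge G} {x : PathSpace G} {h h'} {i : ℕ} (hi : n ≤ i) :
    (put n e x h h').1 i = x.1 i := if_neg (not_lt.2 hi)

lemma κ_cyl_le {m n : ℕ} (hnm : n ≤ m) (x : Idx m) (e : ℕ → Edge G) :
    (x.1 ∈ cyl n e → κ m x (cyl n e) = 1) ∧ (x.1 ∉ cyl n e → κ m x (cyl n e) = 0) := by
  rw [κ_apply m x (measurableSet_cyl n e)]
  constructor
  · intro h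
    have : glue m x ⁻¹' (cyl n e) = Set.univ := by
      ext ω
      simp only [Set.mem_preimage, Set.mem_univ, iff_true]
      intro i hi
      rw [glue_lt x ω (by omega)]
      exact h i hi
    rw [this, measure_univ]
  · intro h
    have : glue m x ⁻¹' (cyl n e) = ∅ := by
      ext ω
      simp only [Set.mem_preimage, Set.mem_empty_iff_false, iff_false]
      intro h1
      apply h
      intro i hi
      have h2 := h1 i hi
      rwa [glue_lt x ω (by omega)] at h2
    rw [this, measure_empty]

/-- the indices in a cylinder correspond to those in any other with the same end vertex -/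
lemma idx_swap {m n : ℕ} (hn : 1 ≤ n) (hnm : n ≤ m) (e e' : ℕ → Edge G) (he : IsFinPath n e)
    (he' : IsFinPath n e') (hee : rng (e (n - 1)) = rng (e' (n - 1))) :
    ν m (cyl n e) = ν m (cyl n e') := by
  rw [ν_apply m (measurableSet_cyl n e), ν_apply m (measurableSet_cyl n e')]
  have h1 : ∀ e : ℕ → Edge G, ∑' x, κ m x (cyl n e) =
      ∑' x : {x : Idx m // x.1 ∈ cyl n e}, (1 : ENNReal) := by
    intro e
    have h2 : ∀ x : Idx m, κ m x (cyl n e) =
        Set.indicator {x : Idx m | x.1 ∈ cyl n e} (fun _ => (1 : ENNReal)) x := by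
      intro x
      by_cases hx : x.1 ∈ cyl n e
      · rw [Set.indicator_of_mem (show x ∈ {x : Idx m | x.1 ∈ cyl n e} from hx),
          (κ_cyl_le hnm x e).1 hx]
      · rw [Set.indicator_of_notMem (show x ∉ {x : Idx m | x.1 ∈ cyl n e} from hx),
          (κ_cyl_le hnm x e).2 hx]
    simp only [h2]
    exact (tsum_subtype {x : Idx m | x.1 ∈ cyl n e} (fun _ => (1 : ENNReal))).symm
  rw [h1, h1]
  have hmk : ∀ (e e' : ℕ → Edge G), IsFinPath n e' → rng (e (n - 1)) = rng (e' (n - 1)) →
      ∀ x : {x : Idx m // x.1 ∈ cyl n e}, rng (e' (n - 1)) = rng (x.1.1.1 (n - 1)) := by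
    intro e e' _ h x
    rw [x.2 (n - 1) (by omega), h]
  let f : ∀ (e e' : ℕ → Edge G), IsFinPath n e' → rng (e (n - 1)) = rng (e' (n - 1)) →
      {x : Idx m // x.1 ∈ cyl n e} → {x : Idx m // x.1 ∈ cyl n e'} := fun e e' he' h x =>
    ⟨⟨put n e' x.1.1 he' (fun _ => hmk e e' he' h x), fun i hi => by
      rw [put_ge (by omega)]
      exact x.1.2 i hi⟩, fun i hi => put_lt (h := he') (h' := fun _ => hmk e e' he' h x) hi⟩
  have hf : ∀ (e e' : ℕ → Edge G) (he : IsFinPath n e) (he' : IsFinPath n e')
      (h : rng (e (n - 1)) = rng (e' (n - 1))) (x : {x : Idx m // x.1 ∈ cyl n e}),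
      f e' e he h.symm (f e e' he' h x) = x := by
    intro e e' he he' h x
    refine Subtype.ext (Subtype.ext (Subtype.ext (funext fun i => ?_)))
    rcases Nat.lt_or_ge i n with hi | hi
    · have h3 : (f e' e he h.symm (f e e' he' h x)).1.1.1 i = e i := if_pos hi
      rw [h3]
      exact (x.2 i hi).symm
    · have h3 : (f e' e he h.symm (f e e' he' h x)).1.1.1 i = (f e e' he' h x).1.1.1 i :=
        if_neg (not_lt.2 hi)
      rw [h3]
      exact if_neg (not_lt.2 hi)
  exact Equiv.tsum_eq (γ := {x : Idx m // x.1 ∈ cyl n e}) (β := {x : Idx m // x.1 ∈ cyl n e'})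
    (Equiv.mk (f e e' he' hee) (f e' e he hee.symm) (hf e e' he he' hee)
      (hf e' e he' he hee.symm)) (fun _ => (1 : ENNReal))

/-- the cylinders of length `n > m` -/
lemma ν_cyl_gt {m n : ℕ} (hmn : m < n) (e : ℕ → Edge G) (he : IsFinPath n e) :
    ν m (cyl n e) = if rng (e (n - 1)) = (n - m, true) then 2⁻¹ ^ (n - m) else 0 := by
  rw [ν_apply m (measurableSet_cyl n e)]
  split_ifs with h
  · -- all edges from level `m` on belong to the ladder
    have h1 : ∀ j, j < n - m → ∃ b, e (n - 1 - j) = lad (n - m - 1 - j) b := by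
      intro j
      induction j with
      | zero =>
        intro _
        refine eq_lad _ _ ?_
        rw [Nat.sub_zero, Nat.sub_zero, h]
        congr 1
        omega
      | succ j ih =>
        intro hj
        obtain ⟨b, hb⟩ := ih (by omega)
        refine eq_lad _ _ ?_
        rw [he (n - 1 - (j + 1)) (by omega), show n - 1 - (j + 1) + 1 = n - 1 - j by omega, hb]
        show ((n - m - 1 - j : ℕ), true) = _
        congr 1
        omega
    have h2 : ∀ j, j < n - m → ∃ b, e (m + j) = lad j b := by
      intro j hj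
      obtain ⟨b, hb⟩ := h1 (n - m - 1 - j) (by omega)
      rw [show n - 1 - (n - m - 1 - j) = m + j by omega,
        show n - m - 1 - (n - m - 1 - j) = j by omega] at hb
      exact ⟨b, hb⟩
    have h3 : ∃ b : ℕ → Bool, ∀ j, j < n - m → e (m + j) = lad j (b j) := by
      choose b hb using h2
      exact ⟨fun j => if hj : j < n - m then b j hj else false, fun j hj => by
        beta_reduce
        rw [hb j hj, dif_pos hj]⟩
    obtain ⟨b, hb⟩ := h3
    -- the only index
    let x0 : Idx m := ⟨⟨fun i => if i < m then e i else lad (i - m) false, by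
      intro i
      beta_reduce
      rcases Nat.lt_or_ge (i + 1) m with h4 | h4
      · rw [if_pos (by omega), if_pos h4]
        exact he i (by omega)
      · rw [if_neg (show ¬ i + 1 < m by omega)]
        rcases Nat.lt_or_ge i m with h5 | h5
        · have h6 : i + 1 = m + 0 := by omega
          rw [if_pos h5, he i (by omega), h6, hb 0 (by omega)]
          show ((0 : ℕ), true) = ((m + 0 - m : ℕ), true)
          rw [show m + 0 - m = 0 by omega]
        · rw [if_neg (by omega), show i + 1 - m = i - m + 1 by omega]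
          rfl⟩, fun i hi => if_neg (by omega)⟩
    rw [tsum_eq_single x0]
    · rw [κ_apply m x0 (measurableSet_cyl n e)]
      have h4 : glue m x0 ⁻¹' (cyl n e) = {ω | ∀ j < n - m, ω j = b j} := by
        ext ω
        simp only [Set.mem_preimage]
        constructor
        · intro h5 j hj
          have h6 := h5 (m + j) (by omega)
          rw [glue_ge x0 ω (by omega), show m + j - m = j by omega, hb j hj] at h6
          exact lad_inj h6
        · intro h5 i hi
          rcases Nat.lt_or_ge i m with h6 | h6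
          · rw [glue_lt x0 ω h6]
            exact if_pos h6
          · rw [glue_ge x0 ω h6, h5 (i - m) (by omega), ← hb (i - m) (by omega)]
            congr 1
            omega
      rw [h4, β_cyl]
    · intro x hx
      rw [κ_apply m x (measurableSet_cyl n e)]
      have h4 : glue m x ⁻¹' (cyl n e) = ∅ := by
        ext ω
        simp only [Set.mem_preimage, Set.mem_empty_iff_false, iff_false]
        intro h5
        apply hx
        refine Subtype.ext (Subtype.ext (funext fun i => ?_))
        rcases Nat.lt_or_ge i m with h6 | h6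
        · have h7 := h5 i (by omega)
          rw [glue_lt x ω h6] at h7
          rw [h7]
          exact (if_pos h6).symm
        · rw [x.2 i h6, x0.2 i h6]
      rw [h4, measure_empty]
  · rw [ENNReal.tsum_eq_zero]
    intro x
    rw [κ_apply m x (measurableSet_cyl n e)]
    have h4 : glue m x ⁻¹' (cyl n e) = ∅ := by
      ext ω
      simp only [Set.mem_preimage, Set.mem_empty_iff_false, iff_false]
      intro h5
      apply h
      rw [← h5 (n - 1) (by omega), glue_ge x ω (by omega)]
      show ((n - 1 - m + 1 : ℕ), true) = _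
      congr 1
      omega
    rw [h4, measure_empty]

lemma ν_invariant (m n : ℕ) (hn : 1 ≤ n) (e e' : ℕ → Edge G) (he : IsFinPath n e)
    (he' : IsFinPath n e') (hee : rng (e (n - 1)) = rng (e' (n - 1))) :
    ν m (cyl n e) = ν m (cyl n e') := by
  rcases Nat.lt_or_ge m n with h | h
  · rw [ν_cyl_gt h e he, ν_cyl_gt h e' he', hee]
  · exact idx_swap hn h e e' he he' hee

/-! ### Finiteness of the index sets -/

/-- the vertices from which `(0, true)` can be reached in `k` steps -/
def R : ℕ → Set (ℕ × Bool)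
  | 0 => {(0, true)}
  | k + 1 => {w | ∃ v ∈ R k, G v w ≠ 0}

lemma R_finite (k : ℕ) : (R k).Finite := by
  induction k with
  | zero => exact Set.finite_singleton _
  | succ k ih =>
    have : R (k + 1) = ⋃ v ∈ R k, {w | G v w ≠ 0} := by
      ext w
      simp [R]
    rw [this]
    exact ih.biUnion fun v _ => G_isIncidence.finite_receive v

lemma edge_finite {S : Set (ℕ × Bool)} (hS : S.Finite) : {f : Edge G | rng f ∈ S}.Finite := by
  have h1 : {f : Edge G | rng f ∈ S} ⊆ ⋃ v ∈ S, ⋃ w ∈ {w | G v w ≠ 0},
      {f : Edge G | rng f = v ∧ src f = w} := by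
    intro f hf
    simp only [Set.mem_iUnion]
    refine ⟨rng f, hf, src f, ?_, rfl, rfl⟩
    have h2 := f.2
    intro h3
    have h4 : G f.1.2.1 f.1.1 = 0 := h3
    omega
  refine Set.Finite.subset ?_ h1
  refine hS.biUnion fun v _ => (G_isIncidence.finite_receive v).biUnion fun w _ => ?_
  have h2 : Set.InjOn (fun f : Edge G => f.1.2.2) {f : Edge G | rng f = v ∧ src f = w} := by
    rintro ⟨⟨a, b, c⟩, h⟩ ⟨h3, h4⟩ ⟨⟨a', b', c'⟩, h'⟩ ⟨h3', h4'⟩ hcc
    have e1 : b = b' := (h3 : b = v).trans (h3' : b' = v).symm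
    have e2 : a = a' := (h4 : a = w).trans (h4' : a' = w).symm
    have e3 : c = c' := hcc
    subst e1 e2 e3
    rfl
  refine Set.Finite.of_finite_image ?_ h2
  refine (Set.finite_Iio (G v w)).subset ?_
  rintro _ ⟨f, ⟨h3, h4⟩, rfl⟩
  have h5 := f.2
  have e1 : f.1.2.1 = v := h3
  have e2 : f.1.1 = w := h4
  rw [e1, e2] at h5
  exact h5

lemma idx_src {m : ℕ} (x : Idx m) : ∀ k, k ≤ m → src (x.1.1 (m - k)) ∈ R k := by
  intro k
  induction k with
  | zero =>
    intro _
    rw [Nat.sub_zero, x.2 m le_rfl, Nat.sub_self]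
    rfl
  | succ k ih =>
    intro hk
    refine ⟨src (x.1.1 (m - k)), ih (by omega), ?_⟩
    have h1 := x.1.2 (m - (k + 1))
    rw [show m - (k + 1) + 1 = m - k by omega] at h1
    rw [← h1]
    have h2 := (x.1.1 (m - (k + 1))).2
    intro h3
    have h4 : G (x.1.1 (m - (k + 1))).1.2.1 (x.1.1 (m - (k + 1))).1.1 = 0 := h3
    omega

instance idx_finite (m : ℕ) : Finite (Idx m) := by
  have h1 : Function.Injective (fun (x : Idx m) (i : Fin m) => x.1.1 i) := by
    intro x y hxy
    refine Subtype.ext (Subtype.ext (funext fun i => ?_))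
    rcases Nat.lt_or_ge i m with h | h
    · exact congrFun hxy ⟨i, h⟩
    · rw [x.2 i h, y.2 i h]
  have h2 : (Set.range (fun (x : Idx m) (i : Fin m) => x.1.1 i)).Finite := by
    have h3 : (Set.pi Set.univ fun i : Fin m => {f : Edge G | rng f ∈ R (m - (i + 1))}).Finite :=
      Set.Finite.pi fun i => edge_finite (R_finite _)
    refine h3.subset ?_
    rintro _ ⟨x, rfl⟩ i _
    show rng (x.1.1 i) ∈ R (m - (i + 1))
    rw [x.1.2 i]
    have h4 := idx_src x (m - (i + 1)) (by omega)
    rwa [show m - (m - ((i : ℕ) + 1)) = i + 1 by omega] at h4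
  have h3 : Finite (Set.range (fun (x : Idx m) (i : Fin m) => x.1.1 i)) := h2
  exact Finite.of_injective (Set.rangeFactorization _) fun x y hxy =>
    h1 (congrArg Subtype.val hxy)

/-! ### The tail-invariant probability measure -/

/-- the weights -/
noncomputable def wt (m : ℕ) : ENNReal := 2⁻¹ ^ (m + 1) * ((Nat.card (Idx m) : ENNReal) + 1)⁻¹

lemma wt_ne_zero (m : ℕ) : wt m ≠ 0 := by
  unfold wt
  refine mul_ne_zero (pow_ne_zero _ (by simp)) ?_
  rw [ENNReal.inv_ne_zero]
  exact ENNReal.add_ne_top.2 ⟨ENNReal.natCast_ne_top _, by simp⟩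

/-- the weighted sum of the `ν m` -/
noncomputable def μ0 : Measure (PathSpace G) := Measure.sum fun m => wt m • ν m

lemma μ0_apply {s : Set (PathSpace G)} (hs : MeasurableSet s) :
    μ0 s = ∑' m, wt m * ν m s := by
  unfold μ0
  rw [Measure.sum_apply _ hs]
  rfl

lemma ν_univ (m : ℕ) : ν m Set.univ = Nat.card (Idx m) := by
  rw [ν_apply m MeasurableSet.univ]
  have := Fintype.ofFinite (Idx m)
  rw [tsum_fintype]
  simp [measure_univ]

lemma μ0_univ_le : μ0 Set.univ ≤ 1 := by
  rw [μ0_apply MeasurableSet.univ]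
  have h1 : ∀ m, wt m * ν m Set.univ ≤ 2⁻¹ ^ (m + 1) := by
    intro m
    rw [ν_univ]
    unfold wt
    rw [mul_assoc]
    refine (mul_le_mul_right (?_ : _ ≤ (1 : ENNReal)) _).trans (mul_one _).le
    calc ((Nat.card (Idx m) : ENNReal) + 1)⁻¹ * (Nat.card (Idx m) : ENNReal)
        ≤ ((Nat.card (Idx m) : ENNReal) + 1)⁻¹ * ((Nat.card (Idx m) : ENNReal) + 1) := by
          gcongr
          exact le_self_add
      _ = 1 := ENNReal.inv_mul_cancel (by simp) (by simp)
  refine (ENNReal.tsum_le_tsum h1).trans ?_
  have h2 : ∑' m : ℕ, (2⁻¹ : ENNReal) ^ (m + 1) = 1 := by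
    have := ENNReal.tsum_geometric_add_one (2⁻¹ : ENNReal)
    rw [this, ENNReal.one_sub_inv_two, inv_inv]
    exact ENNReal.inv_mul_cancel (by simp) (by simp)
  exact h2.le

lemma exists_idx (i : ℕ) : ∀ (n : ℕ) (e : ℕ → Edge G), 1 ≤ n → IsFinPath n e →
    rng (e (n - 1)) = (i, false) → ∃ m, n ≤ m ∧ ∃ x : Idx m, x.1 ∈ cyl n e := by
  have hupd : ∀ (n : ℕ) (e : ℕ → Edge G) (f : Edge G), 1 ≤ n → IsFinPath n e →
      rng (e (n - 1)) = src f → IsFinPath (n + 1) (Function.update e n f) := by
    intro n e f hn he hf i hi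
    rw [Function.update_of_ne (by omega)]
    rcases Nat.lt_or_ge (i + 1) n with h | h
    · rw [Function.update_of_ne (by omega)]
      exact he i h
    · have : i + 1 = n := by omega
      rw [this, Function.update_self, ← hf]
      congr 2
      omega
  have hsub : ∀ (n : ℕ) (e : ℕ → Edge G) (f : Edge G) (x : PathSpace G),
      x ∈ cyl (n + 1) (Function.update e n f) → x ∈ cyl n e := by
    intro n e f x hx i hi
    have := hx i (by omega)
    rwa [Function.update_of_ne (by omega)] at this
  induction i with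
  | zero =>
    intro n e hn he hend
    have hf : (0 : ℕ) < G (0, true) (0, false) := by simp [G]
    set f : Edge G := ⟨((0, false), (0, true), 0), hf⟩ with hfdef
    have h1 := hupd n e f hn he hend
    refine ⟨n + 1, by omega, ⟨⟨fun i => if i < n + 1 then Function.update e n f i else
      lad (i - (n + 1)) false, ?_⟩, fun i hi => if_neg (by omega)⟩, ?_⟩
    · intro i
      beta_reduce
      rcases Nat.lt_or_ge (i + 1) (n + 1) with h4 | h4
      · rw [if_pos (by omega), if_pos h4]
        exact h1 i (by omega)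
      · rw [if_neg (show ¬ i + 1 < n + 1 by omega)]
        rcases Nat.lt_or_ge i (n + 1) with h5 | h5
        · have h6 : i = n := by omega
          rw [if_pos h5, h6, Function.update_self, Nat.sub_self]
          rfl
        · rw [if_neg (by omega), show i + 1 - (n + 1) = i - (n + 1) + 1 by omega]
          rfl
    · refine hsub n e f _ fun i hi => ?_
      exact if_pos hi
  | succ i ih =>
    intro n e hn he hend
    have hf : (0 : ℕ) < G (i, false) (i + 1, false) := by simp [G]
    set f : Edge G := ⟨((i + 1, false), (i, false), 0), hf⟩ with hfdef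
    have h1 := hupd n e f hn he hend
    obtain ⟨m, hm, x, hx⟩ := ih (n + 1) _ (by omega) h1 (by
      rw [show n + 1 - 1 = n by omega, Function.update_self]
      rfl)
    exact ⟨m, by omega, x, hsub n e f _ hx⟩

lemma exists_idx' (n : ℕ) (e : ℕ → Edge G) (hn : 1 ≤ n) (he : IsFinPath n e) :
    ∃ m, n ≤ m ∧ ∃ x : Idx m, x.1 ∈ cyl n e := by
  obtain ⟨⟨i, b⟩, hv⟩ : ∃ v, rng (e (n - 1)) = v := ⟨_, rfl⟩
  rcases b
  · exact exists_idx i n e hn he hv
  · have hf : (0 : ℕ) < G (i, false) (i, true) := by simp [G]
    set f : Edge G := ⟨((i, true), (i, false), 0), hf⟩ with hfdef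
    have h1 : IsFinPath (n + 1) (Function.update e n f) := by
      intro j hj
      rw [Function.update_of_ne (by omega)]
      rcases Nat.lt_or_ge (j + 1) n with h | h
      · rw [Function.update_of_ne (by omega)]
        exact he j h
      · have h2 : j + 1 = n := by omega
        have h3 : j = n - 1 := by omega
        rw [h2, Function.update_self, h3, hv]
        rfl
    obtain ⟨m, hm, x, hx⟩ := exists_idx i (n + 1) _ (by omega) h1 (by
      rw [show n + 1 - 1 = n by omega, Function.update_self]
      rfl)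
    refine ⟨m, by omega, x, fun j hj => ?_⟩
    have := hx j (by omega)
    rwa [Function.update_of_ne (by omega)] at this

lemma μ0_cyl_pos (n : ℕ) (e : ℕ → Edge G) (hn : 1 ≤ n) (he : IsFinPath n e) :
    0 < μ0 (cyl n e) := by
  obtain ⟨m, hm, x, hx⟩ := exists_idx' n e hn he
  rw [μ0_apply (measurableSet_cyl n e)]
  refine lt_of_lt_of_le ?_ (ENNReal.le_tsum m)
  refine ENNReal.mul_pos (wt_ne_zero m) ?_
  rw [ν_apply m (measurableSet_cyl n e)]
  refine (lt_of_lt_of_le ?_ (ENNReal.le_tsum x)).ne'
  rw [(κ_cyl_le hm x e).1 hx]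
  exact one_pos

lemma measurableSet_point (z : PathSpace G) : MeasurableSet {z} := by
  have : {z} = ⋂ n, cyl n z.1 := by
    ext x
    simp only [Set.mem_singleton_iff, Set.mem_iInter]
    constructor
    · rintro rfl n i _
      rfl
    · intro h
      exact Subtype.ext (funext fun i => h (i + 1) i (Nat.lt_succ_self i))
  rw [this]
  exact MeasurableSet.iInter fun n => measurableSet_cyl _ _

lemma μ0_singleton (z : PathSpace G) : μ0 {z} = 0 := by
  rw [μ0_apply (measurableSet_point z), ENNReal.tsum_eq_zero]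
  intro m
  rw [ν_apply m (measurableSet_point z)]
  have h1 : ∀ x : Idx m, κ m x {z} = 0 := by
    intro x
    rw [κ_apply m x (measurableSet_point z)]
    by_cases h : ∃ ω, glue m x ω = z
    · obtain ⟨ω0, h0⟩ := h
      refine measure_mono_null (t := {ω0}) ?_ (β_singleton ω0)
      intro ω hω
      have h2 : glue m x ω = z := hω
      refine Set.mem_singleton_iff.2 (funext fun j => ?_)
      have h3 := congrArg (fun y : PathSpace G => y.1 (m + j)) (h2.trans h0.symm)
      have h4 : (glue m x ω).1 (m + j) = (glue m x ω0).1 (m + j) := h3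
      rw [glue_ge x ω (by omega), glue_ge x ω0 (by omega), show m + j - m = j by omega] at h4
      exact lad_inj h4
    · have : glue m x ⁻¹' {z} = ∅ := by
        ext ω
        simp only [Set.mem_preimage, Set.mem_singleton_iff, Set.mem_empty_iff_false, iff_false]
        exact fun h2 => h ⟨ω, h2⟩
      rw [this, measure_empty]
  simp [h1]

/-- There is a stationary generalized Bratteli diagram whose incidence matrix `F` is irreducible and
aperiodic and has no finite Perron eigenvalue (`((F ^ n)_{ij}) ^ (1 / n) → ∞` for all `i, j`), and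
a tail-invariant probability measure on its path space that is positive on all cylinder sets and
has no atoms. -/
theorem result : ∃ (V : Type) (F : V → V → ℕ), IsIncidence F ∧ IsIrreducible F ∧ IsAperiodic F ∧
    PerronInfinite F ∧ ∃ μ : Measure (PathSpace F), IsTailInvariant μ ∧ IsProbabilityMeasure μ ∧
      (∀ (n : ℕ) (e : ℕ → Edge F), 1 ≤ n → IsFinPath n e → 0 < μ (cyl n e)) ∧
      ∀ x : PathSpace F, μ {x} = 0 := by
  refine ⟨ℕ × Bool, G, G_isIncidence, G_irreducible, G_aperiodic, G_perron,
    (μ0 Set.univ)⁻¹ • μ0, ?_⟩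
  have hfp : IsFinPath 1 (fun _ : ℕ => lad 0 false) := fun i hi => absurd hi (by omega)
  have hpos : 0 < μ0 Set.univ :=
    lt_of_lt_of_le (μ0_cyl_pos 1 _ le_rfl hfp) (measure_mono (Set.subset_univ _))
  have hfin : μ0 Set.univ ≠ ⊤ := (lt_of_le_of_lt μ0_univ_le ENNReal.one_lt_top).ne
  have hprob : IsProbabilityMeasure ((μ0 Set.univ)⁻¹ • μ0) := ⟨by
    rw [Measure.smul_apply, smul_eq_mul]
    exact ENNReal.inv_mul_cancel hpos.ne' hfin⟩
  refine ⟨⟨IsProbabilityMeasure.ne_zero _, ?_⟩, hprob, ?_, ?_⟩
  · intro n e e' hn he he' hee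
    rw [Measure.smul_apply, Measure.smul_apply, μ0_apply (measurableSet_cyl n e),
      μ0_apply (measurableSet_cyl n e')]
    congr 1
    exact tsum_congr fun m => by rw [ν_invariant m n hn e e' he he' hee]
  · intro n e hn he
    rw [Measure.smul_apply, smul_eq_mul]
    exact ENNReal.mul_pos (ENNReal.inv_ne_zero.2 hfin) (μ0_cyl_pos n e hn he).ne'
  · intro x
    rw [Measure.smul_apply, smul_eq_mul, μ0_singleton, mul_zero]

end Pool.Agent.Results.MP_17dcfb_an.FiniteMeasureExists
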