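import Pool.Agent.R201.BratteliDefs

/-!
# The tridiagonal diagram has no finite tail-invariant measure

The stationary generalized Bratteli diagram with the tridiagonal incidence matrix with diagonal
`2, 3, 4, …` and off-diagonal entries `1` carries no tail-invariant measure that is finite on all
cylinder sets; in particular it carries no tail-invariant probability measure.
-/

set_option autoImplicit false
set_option linter.unusedSimpArgs false

open MeasureTheory Pool.Agent.R201.Bratteli

namespace Pool.Agent.Results.MP_17dcfb_an.NoInvariantMeasure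

/-- The tridiagonal matrix of the problem; the index `i = 0, 1, 2, …` stands for `i + 1`, so the
diagonal entry at `i` is `i + 2`. -/
def tri (i j : ℕ) : ℕ := if i = j then i + 2 else if i = j + 1 ∨ j = i + 1 then 1 else 0

/-! ### Sequences -/

/-- the action of the matrix on sequences -/
noncomputable def op (b : ℕ → ℝ) (i : ℕ) : ℝ :=
  (if i = 0 then 0 else b (i - 1)) + (i + 2) * b i + b (i + 1)

open Finsupp in
/-- the action of the matrix on finitely supported sequences -/
noncomputable def Fl : (ℕ →₀ ℝ) →ₗ[ℝ] (ℕ →₀ ℝ) :=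
  Finsupp.linearCombination ℝ (fun i : ℕ =>
    (if i = 0 then (0 : ℕ →₀ ℝ) else single (i - 1) 1) + single i ((i : ℝ) + 2) + single (i + 1) 1)

lemma Fl_apply (f : ℕ →₀ ℝ) (j : ℕ) : Fl f j = op f j := by
  induction f using Finsupp.induction_linear with
  | zero => simp [op, Fl]
  | add f g hf hg =>
    rw [map_add, Finsupp.add_apply, hf, hg]
    unfold op
    split_ifs <;> simp <;> ring
  | single i c =>
    unfold Fl op
    rw [Finsupp.linearCombination_single]
    rcases j with _ | j
    · rcases i with _ | _ | i
      · simp; ring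
      · simp
      · simp
    · rcases Nat.lt_trichotomy i j with h | h | h
      · have h1 : i ≠ j := by omega
        have h2 : i ≠ j + 1 := by omega
        have h3 : i ≠ j + 1 + 1 := by omega
        have h4 : i - 1 ≠ j + 1 := by omega
        by_cases h0 : i = 0
        · subst h0
          simp [Finsupp.single_apply, show ¬ (0 = j) by omega, show ¬ (j = 0) by omega]
        · simp [h0, h1, h2, h3, h4, Finsupp.single_apply]
      · subst h
        have h4 : i - 1 ≠ i + 1 := by omega
        by_cases h0 : i = 0
        · simp [h0]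
        · simp [h0, h4, Finsupp.single_apply, show ¬ (i = i + 1 + 1) by omega]
      · rcases Nat.lt_trichotomy i (j + 2) with h' | h' | h'
        · have h5 : i = j + 1 := by omega
          subst h5
          simp [Finsupp.single_apply]
          ring
        · subst h'
          simp [Finsupp.single_apply]
        · have h1 : i ≠ j := by omega
          have h2 : i ≠ j + 1 := by omega
          have h3 : i ≠ j + 1 + 1 := by omega
          have h4 : i - 1 ≠ j + 1 := by omega
          have h0 : i ≠ 0 := by omega
          simp [h0, h1, h2, h3, h4, Finsupp.single_apply]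

/-- the pairing of a finitely supported sequence with a sequence -/
noncomputable def L (b : ℕ → ℝ) : (ℕ →₀ ℝ) →ₗ[ℝ] ℝ := Finsupp.linearCombination ℝ b

lemma L_Fl (b : ℕ → ℝ) (f : ℕ →₀ ℝ) : L b (Fl f) = L (op b) f := by
  have : (L b).comp Fl = L (op b) := by
    refine Finsupp.lhom_ext fun i c => ?_
    unfold L Fl op
    rw [LinearMap.comp_apply, Finsupp.linearCombination_single, Finsupp.linearCombination_single,
      map_smul, map_add, map_add, Finsupp.linearCombination_single,
      Finsupp.linearCombination_single]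
    by_cases h0 : i = 0
    · rw [if_pos h0, if_pos h0, map_zero, one_smul]
      rfl
    · rw [if_neg h0, if_neg h0, Finsupp.linearCombination_single, one_smul, one_smul]
      rfl
  exact congrArg (fun g => g f) this

lemma L_mono (b : ℕ → ℝ) (hb : ∀ i, 0 ≤ b i) (f g : ℕ →₀ ℝ) (hfg : ∀ i, f i ≤ g i) :
    L b f ≤ L b g := by
  have h1 : L b (g - f) = ∑ i ∈ (g - f).support, (g - f) i * b i := by
    unfold L
    rw [Finsupp.linearCombination_apply, Finsupp.sum]
    rfl
  have h2 : 0 ≤ L b (g - f) := by
    rw [h1]
    refine Finset.sum_nonneg fun i _ => mul_nonneg ?_ (hb i)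
    rw [Finsupp.sub_apply]
    linarith [hfg i]
  rw [map_sub] at h2
  linarith

/-- total positivity of order two of the pair of sequences `x`, `y` -/
def TP (x y : ℕ → ℝ) : Prop := ∀ i j, i ≤ j → x j * y i ≤ x i * y j

lemma TP_op (x y : ℕ → ℝ) (h : TP x y) : TP (op x) (op y) := by
  intro i j hij
  rcases Nat.lt_or_ge i j with hlt | hge
  swap
  · have : i = j := le_antisymm hij hge
    subst this
    exact le_refl _
  obtain ⟨j, rfl⟩ : ∃ k, j = k + 1 := ⟨j - 1, by omega⟩
  have hij' : i ≤ j := by omega
  unfold op
  simp only [Nat.add_sub_cancel, Nat.succ_ne_zero, if_false, Nat.add_eq_zero_iff, one_ne_zero,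
    and_false]
  have e1 := h i j hij'
  have e2 := h i (j + 1) (by omega)
  have e3 := h i (j + 1 + 1) (by omega)
  have e5 := h (i + 1) (j + 1) (by omega)
  have e6 := h (i + 1) (j + 1 + 1) (by omega)
  have hi : (0 : ℝ) ≤ i := Nat.cast_nonneg i
  have hj : (0 : ℝ) ≤ j := Nat.cast_nonneg j
  push_cast
  by_cases h0 : i = 0
  · subst h0
    simp only [if_true, zero_add, Nat.cast_zero] at *
    rcases Nat.eq_zero_or_pos j with h1 | h1
    · subst h1
      simp only [Nat.cast_zero, zero_add] at *
      nlinarith
    · have e4 := h 1 j (by omega)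
      nlinarith [mul_nonneg hj (sub_nonneg.2 e2), mul_nonneg hj (sub_nonneg.2 e5)]
  · obtain ⟨i, rfl⟩ : ∃ k, i = k + 1 := ⟨i - 1, by omega⟩
    simp only [Nat.add_sub_cancel, Nat.succ_ne_zero, if_false, Nat.add_eq_zero_iff, one_ne_zero,
      and_false]
    have d1 := h i j (by omega)
    have d2 := h i (j + 1) (by omega)
    have d3 := h i (j + 1 + 1) (by omega)
    have hi' : (0 : ℝ) ≤ i := Nat.cast_nonneg i
    push_cast
    have p1 := mul_nonneg hi' (sub_nonneg.2 e1)
    have p2 := mul_nonneg hi' (sub_nonneg.2 e2)
    have p3 := mul_nonneg hi' (sub_nonneg.2 e3)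
    have p4 := mul_nonneg hj (sub_nonneg.2 e2)
    have p5 := mul_nonneg hj (sub_nonneg.2 e5)
    have p6 := mul_nonneg hj (sub_nonneg.2 d2)
    have p7 := mul_nonneg (mul_nonneg hi' hj) (sub_nonneg.2 e2)
    rcases Nat.lt_or_ge (i + 1) j with h1 | h1
    · have e4 := h (i + 1 + 1) j (by omega)
      nlinarith
    · have h2 : j = i + 1 := by omega
      subst h2
      push_cast at *
      nlinarith

/-! ### Nonnegative solutions of `a n = F (a (n + 1))` vanish -/

/-- `F^n e_0` -/
noncomputable def u (n : ℕ) : ℕ →₀ ℝ := (Fl ^ n) (Finsupp.single 0 1)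

lemma u_succ (n : ℕ) : u (n + 1) = Fl (u n) := by
  unfold u
  rw [pow_succ', Module.End.mul_apply]

lemma u_succ_apply (n i : ℕ) : u (n + 1) i = op (u n) i := by
  rw [u_succ, Fl_apply]

lemma u_nonneg (n : ℕ) : ∀ i, 0 ≤ u n i := by
  induction n with
  | zero =>
    intro i
    unfold u
    rw [pow_zero, Module.End.one_apply, Finsupp.single_apply]
    split_ifs <;> norm_num
  | succ n ih =>
    intro i
    rw [u_succ_apply]
    unfold op
    have h1 := ih (i - 1)
    have h2 := ih i
    have h3 := ih (i + 1)
    have h4 : (0 : ℝ) ≤ i := Nat.cast_nonneg i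
    split_ifs
    · nlinarith
    · nlinarith

lemma TP_u (n : ℕ) : TP (u n) (u (n + 1)) := by
  induction n with
  | zero =>
    intro i j hij
    rcases Nat.eq_zero_or_pos i with h | h
    · subst h
      rcases Nat.eq_zero_or_pos j with h' | h'
      · subst h'
        exact le_refl _
      · have h1 : u 0 j = 0 := by
          unfold u
          rw [pow_zero, Module.End.one_apply, Finsupp.single_apply, if_neg (by omega)]
        rw [h1, zero_mul]
        exact mul_nonneg (u_nonneg _ _) (u_nonneg _ _)
    · have h1 : u 0 j = 0 := by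
        unfold u
        rw [pow_zero, Module.End.one_apply, Finsupp.single_apply, if_neg (by omega)]
      rw [h1, zero_mul]
      exact mul_nonneg (u_nonneg _ _) (u_nonneg _ _)
  | succ n ih =>
    have h1 := TP_op _ _ ih
    intro i j hij
    rw [u_succ_apply (n + 1) i, u_succ_apply (n + 1) j, u_succ_apply n i, u_succ_apply n j]
    exact h1 i j hij

/-- a nonnegative solution of `a n = F (a (n + 1))` -/
def Sol (a : ℕ → ℕ → ℝ) : Prop := (∀ n i, 0 ≤ a n i) ∧ ∀ n i, a n i = op (a (n + 1)) i

lemma L_u (a : ℕ → ℕ → ℝ) (ha : Sol a) (f : ℕ →₀ ℝ) (n : ℕ) :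
    L (a n) ((Fl ^ n) f) = L (a 0) f := by
  induction n generalizing f with
  | zero => rw [pow_zero, Module.End.one_apply]
  | succ n ih =>
    rw [pow_succ', Module.End.mul_apply, L_Fl]
    have : op (a (n + 1)) = a n := (funext fun i => ha.2 n i).symm
    rw [this, ih]

lemma u_grow (k n : ℕ) : ((k : ℝ) + 2) ^ n ≤ u (n + (k + k)) 0 := by
  have hup : ∀ m i, u m i ≤ u (m + 1) (i + 1) := by
    intro m i
    rw [u_succ_apply]
    unfold op
    rw [if_neg (by omega), Nat.add_sub_cancel]
    have h2 := u_nonneg m (i + 1)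
    have h3 := u_nonneg m (i + 1 + 1)
    have h4 : (0 : ℝ) ≤ ((i + 1 : ℕ) : ℝ) + 2 := by positivity
    nlinarith [mul_nonneg h4 h2]
  have hdown : ∀ m i, u m (i + 1) ≤ u (m + 1) i := by
    intro m i
    rw [u_succ_apply]
    unfold op
    have h1 := u_nonneg m (i - 1)
    have h2 := u_nonneg m i
    have h4 : (0 : ℝ) ≤ (i : ℝ) + 2 := by positivity
    have h5 := mul_nonneg h4 h2
    split_ifs <;> linarith
  have hstay : ∀ m i : ℕ, ((i : ℝ) + 2) * u m i ≤ u (m + 1) i := by
    intro m i
    rw [u_succ_apply]
    unfold op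
    have h1 := u_nonneg m (i - 1)
    have h3 := u_nonneg m (i + 1)
    split_ifs <;> linarith
  have h1 : ∀ j, 1 ≤ u j j := by
    intro j
    induction j with
    | zero =>
      unfold u
      rw [pow_zero, Module.End.one_apply, Finsupp.single_apply, if_pos rfl]
    | succ j ih => exact ih.trans (hup j j)
  have h2 : ∀ m, ((k : ℝ) + 2) ^ m ≤ u (m + k) k := by
    intro m
    induction m with
    | zero => simpa using h1 k
    | succ m ih =>
      have h3 := hstay (m + k) k
      have h4 : (0 : ℝ) ≤ (k : ℝ) + 2 := by positivity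
      calc ((k : ℝ) + 2) ^ (m + 1) = ((k : ℝ) + 2) * ((k : ℝ) + 2) ^ m := by ring
        _ ≤ ((k : ℝ) + 2) * u (m + k) k := mul_le_mul_of_nonneg_left ih h4
        _ ≤ u (m + k + 1) k := h3
        _ = u (m + 1 + k) k := by rw [show m + k + 1 = m + 1 + k by omega]
  have h3 : ∀ j, ∀ m i, i + j ≤ k + j → u m (i + j) ≤ u (m + j) i := by
    intro j
    induction j with
    | zero => intro m i _; simp
    | succ j ih =>
      intro m i hi
      have h4 := hdown m (i + j)
      have h5 := ih (m + 1) i (by omega)
      calc u m (i + (j + 1)) = u m (i + j + 1) := by rw [add_assoc]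
        _ ≤ u (m + 1) (i + j) := h4
        _ ≤ u (m + 1 + j) i := h5
        _ = u (m + (j + 1)) i := by rw [show m + 1 + j = m + (j + 1) by omega]
  have h6 := h3 k (n + k) 0 (by omega)
  rw [zero_add, show n + k + k = n + (k + k) by omega] at h6
  exact (h2 n).trans h6

lemma sol_zero_zero (a : ℕ → ℕ → ℝ) (ha : Sol a) : a 0 0 = 0 := by
  by_contra hne
  have hpos : 0 < a 0 0 := lt_of_le_of_ne (ha.1 0 0) (Ne.symm hne)
  have hLu : ∀ n, L (a n) (u n) = a 0 0 := by
    intro n
    have := L_u a ha (Finsupp.single 0 1) n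
    unfold u
    rw [this]
    unfold L
    rw [Finsupp.linearCombination_single, one_smul]
  have hLu' : ∀ n, L (a n) (u (n + 1)) = 2 * a 0 0 + a 0 1 := by
    intro n
    have h1 : u (n + 1) = (Fl ^ n) (Fl (Finsupp.single 0 1)) := by
      unfold u
      rw [pow_succ, Module.End.mul_apply]
    rw [h1, L_u a ha, L_Fl]
    unfold L
    rw [Finsupp.linearCombination_single, one_smul]
    unfold op
    simp
  set R : ℝ := 2 + a 0 1 / a 0 0 with hR
  have h01 : 0 ≤ a 0 1 / a 0 0 := div_nonneg (ha.1 0 1) hpos.le
  have hR0 : 0 < R := by linarith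
  have hstep : ∀ n, u (n + 1) 0 ≤ R * u n 0 := by
    intro n
    have h1 : L (a n) (u (n + 1) 0 • u n) ≤ L (a n) (u n 0 • u (n + 1)) := by
      refine L_mono _ (ha.1 n) _ _ fun i => ?_
      have := TP_u n 0 i (Nat.zero_le i)
      simp only [Finsupp.smul_apply, smul_eq_mul]
      linarith
    rw [map_smul, map_smul, hLu, hLu', smul_eq_mul, smul_eq_mul] at h1
    have h2 : 2 * a 0 0 + a 0 1 = R * a 0 0 := by
      rw [hR]
      field_simp
    rw [h2] at h1
    have h3 : u (n + 1) 0 * a 0 0 ≤ (R * u n 0) * a 0 0 := by linarith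
    exact le_of_mul_le_mul_right h3 hpos
  have hbound : ∀ n, u n 0 ≤ R ^ n := by
    intro n
    induction n with
    | zero =>
      unfold u
      rw [pow_zero, Module.End.one_apply, Finsupp.single_apply, if_pos rfl, pow_zero]
    | succ n ih =>
      calc u (n + 1) 0 ≤ R * u n 0 := hstep n
        _ ≤ R * R ^ n := mul_le_mul_of_nonneg_left ih hR0.le
        _ = R ^ (n + 1) := by ring
  obtain ⟨k, hk⟩ := exists_nat_gt R
  have h4 : ∀ n, (((k : ℝ) + 2) / R) ^ n ≤ R ^ (k + k) := by
    intro n
    have h5 := (u_grow k n).trans (hbound (n + (k + k)))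
    rw [pow_add] at h5
    rw [div_pow, div_le_iff₀ (pow_pos hR0 n)]
    linarith
  have h5 : 1 < ((k : ℝ) + 2) / R := by
    rw [one_lt_div hR0]
    linarith
  obtain ⟨n, hn⟩ := pow_unbounded_of_one_lt (R ^ (k + k)) h5
  exact absurd (h4 n) (not_le.2 hn)

lemma sol_eq_zero : ∀ (i : ℕ) (a : ℕ → ℕ → ℝ), Sol a → ∀ n, a n i = 0 := by
  intro i
  induction i with
  | zero =>
    intro a ha n
    have h1 : Sol (fun m => a (n + m)) := ⟨fun m j => ha.1 _ _, fun m j => ha.2 _ _⟩
    exact sol_zero_zero _ h1
  | succ i ih =>
    intro a ha n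
    -- extend backwards
    have h1 : Sol (fun m => match m with
        | 0 => op (a n)
        | m + 1 => a (n + m)) := by
      refine ⟨fun m j => ?_, fun m j => ?_⟩
      · rcases m with _ | m
        · show 0 ≤ op (a n) j
          unfold op
          have h1 := ha.1 n (j - 1)
          have h2 := ha.1 n j
          have h3 := ha.1 n (j + 1)
          have h4 : (0 : ℝ) ≤ j := Nat.cast_nonneg j
          split_ifs
          · nlinarith
          · nlinarith
        · exact ha.1 _ _
      · rcases m with _ | m
        · rfl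
        · exact ha.2 _ _
    have h2 := ih _ h1 0
    have h2' : op (a n) i = 0 := h2
    unfold op at h2'
    have h3 := ha.1 n (i - 1)
    have h4 := ha.1 n i
    have h5 := ha.1 n (i + 1)
    have h6 : (0 : ℝ) ≤ i := Nat.cast_nonneg i
    have h7 : 0 ≤ ((i : ℝ) + 2) * a n i := mul_nonneg (by linarith) h4
    split_ifs at h2'
    · linarith
    · linarith

/-! ### Measures -/

variable {V : Type} {F : V → V → ℕ}

lemma measurableSet_cyl (n : ℕ) (e : ℕ → Edge F) : MeasurableSet (cyl n e) := by
  have : cyl n e = ⋂ i : {i // i < n}, (fun x : PathSpace F => x.1 i) ⁻¹' {e i} := by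
    ext x
    simp [cyl]
  rw [this]
  refine MeasurableSet.iInter fun i => ?_
  have h1 : Measurable (fun x : PathSpace F => x.1 (i : ℕ)) :=
    (measurable_pi_apply (i : ℕ)).comp measurable_subtype_coe
  exact h1 (by trivial)

lemma cyl_split (n : ℕ) (hn : 1 ≤ n) (e : ℕ → Edge F) :
    cyl n e = ⋃ f : {f : Edge F // src f = rng (e (n - 1))}, cyl (n + 1) (Function.update e n f) := by
  ext x
  simp only [cyl, Set.mem_ofPred_eq, Set.mem_iUnion]
  constructor
  · intro h
    refine ⟨⟨x.1 n, ?_⟩, ?_⟩
    · have h1 := x.2 (n - 1)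
      rw [show n - 1 + 1 = n by omega] at h1
      rw [← h1, h (n - 1) (by omega)]
    · intro i hi
      rcases Nat.lt_or_ge i n with h1 | h1
      · rw [Function.update_of_ne (by omega), h i h1]
      · have : i = n := by omega
        subst this
        rw [Function.update_self]
  · rintro ⟨f, hf⟩ i hi
    have := hf i (by omega)
    rwa [Function.update_of_ne (by omega)] at this

lemma measure_cyl_split [Countable V] (μ : Measure (PathSpace F)) (n : ℕ) (hn : 1 ≤ n)
    (e : ℕ → Edge F) : μ (cyl n e) =
      ∑' f : {f : Edge F // src f = rng (e (n - 1))}, μ (cyl (n + 1) (Function.update e n f)) := by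
  have : Countable (Edge F) := by
    unfold Edge
    infer_instance
  rw [cyl_split n hn e, measure_iUnion]
  · intro f f' hff'
    refine Set.disjoint_left.2 fun x hx hx' => hff' ?_
    have h1 := hx n (Nat.lt_succ_self n)
    have h2 := hx' n (Nat.lt_succ_self n)
    rw [Function.update_self] at h1 h2
    exact Subtype.ext (h1.symm.trans h2)
  · intro f
    exact measurableSet_cyl _ _

/-- the outgoing edges of a vertex -/
def outEquiv (F : V → V → ℕ) (w : V) : {f : Edge F // src f = w} ≃ (Σ v : V, Fin (F v w)) where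
  toFun f := ⟨rng f.1, ⟨f.1.1.2.2, by
    have h1 := f.1.2
    have h2 : f.1.1.1 = w := f.2
    rw [h2] at h1
    exact h1⟩⟩
  invFun g := ⟨⟨(w, g.1, g.2), g.2.2⟩, rfl⟩
  left_inv := by
    rintro ⟨⟨⟨a, b, c⟩, h⟩, h'⟩
    have : a = w := h'
    subst this
    rfl
  right_inv := by
    rintro ⟨v, k⟩
    rfl

lemma tsum_out (w : V) (g : V → ENNReal) :
    ∑' f : {f : Edge F // src f = w}, g (rng f.1) = ∑' v : V, (F v w : ENNReal) * g v := by
  rw [← (outEquiv F w).symm.tsum_eq]
  have : ∀ c : (Σ v : V, Fin (F v w)), g (rng ((outEquiv F w).symm c).1) = g c.1 := fun c => rfl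
  simp only [this]
  rw [ENNReal.tsum_sigma (fun (v : V) (_ : Fin (F v w)) => g v)]
  refine tsum_congr fun v => ?_
  rw [tsum_fintype, Finset.sum_const, Finset.card_univ, Fintype.card_fin, nsmul_eq_mul]

/-- the loop number `0` at `i` -/
def loop (i : ℕ) : Edge tri := ⟨(i, i, 0), by simp [tri]⟩

lemma tri_isIncidence : IsIncidence tri where
  countable := inferInstance
  infinite := inferInstance
  finite_emit := by
    intro w
    refine (Set.finite_Iic (w + 1)).subset fun v hv => ?_
    simp only [tri, Set.mem_ofPred_eq] at hv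
    simp only [Set.mem_Iic]
    by_contra hcon
    rw [if_neg (by omega), if_neg (by omega)] at hv
    exact hv rfl
  finite_receive := by
    intro w
    refine (Set.finite_Iic (w + 1)).subset fun v hv => ?_
    simp only [tri, Set.mem_ofPred_eq] at hv
    simp only [Set.mem_Iic]
    by_contra hcon
    rw [if_neg (by omega), if_neg (by omega)] at hv
    exact hv rfl
  emits := fun w => ⟨w, by simp [tri]⟩
  receives := fun w => ⟨w, by simp [tri]⟩

/-- The stationary generalized Bratteli diagram with the tridiagonal incidence matrix `tri` (with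
diagonal `2, 3, 4, …` and off-diagonal entries `1`) carries no tail-invariant measure that is finite
on all cylinder sets. In particular there is no tail-invariant probability measure on it. -/
theorem result : IsIncidence tri ∧
    (¬ ∃ μ : Measure (PathSpace tri), IsTailInvariant μ ∧
      ∀ (n : ℕ) (e : ℕ → Edge tri), 1 ≤ n → IsFinPath n e → μ (cyl n e) < ⊤) ∧
    ¬ ∃ μ : Measure (PathSpace tri), IsTailInvariant μ ∧ IsProbabilityMeasure μ := by
  have main : ¬ ∃ μ : Measure (PathSpace tri), IsTailInvariant μ ∧
      ∀ (n : ℕ) (e : ℕ → Edge tri), 1 ≤ n → IsFinPath n e → μ (cyl n e) < ⊤ := by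
    rintro ⟨μ, ⟨hne, hinv⟩, hfin⟩
    set b : ℕ → ℕ → ENNReal := fun n i => μ (cyl (n + 1) (fun _ => loop i)) with hb
    have hfp : ∀ n i, IsFinPath n (fun _ => loop i) := fun n i j _ => rfl
    have hbfin : ∀ n i, b n i ≠ ⊤ := fun n i => (hfin _ _ (by omega) (hfp _ _)).ne
    have hend : ∀ (n : ℕ) (e : ℕ → Edge tri), IsFinPath (n + 1) e →
        μ (cyl (n + 1) e) = b n (rng (e n)) := by
      intro n e he
      exact hinv (n + 1) e _ (by omega) he (hfp _ _) rfl
    have hrec : ∀ n i, b n i = ∑' j, (tri j i : ENNReal) * b (n + 1) j := by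
      intro n i
      rw [← tsum_out (F := tri) i (b (n + 1))]
      show μ (cyl (n + 1) (fun _ => loop i)) = _
      rw [measure_cyl_split μ (n + 1) (by omega)]
      refine tsum_congr fun f => ?_
      rw [hend (n + 1) _ ?_, Function.update_self]
      intro j hj
      rw [Function.update_of_ne (by omega)]
      rcases Nat.lt_or_ge (j + 1) (n + 1) with h | h
      · rw [Function.update_of_ne (by omega)]
        rfl
      · have : j + 1 = n + 1 := by omega
        rw [this, Function.update_self]
        exact f.2.symm
    have hrec' : ∀ n i, b n i = (if i = 0 then 0 else b (n + 1) (i - 1)) +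
        ((i : ENNReal) + 2) * b (n + 1) i + b (n + 1) (i + 1) := by
      intro n i
      rw [hrec n i]
      by_cases h0 : i = 0
      · subst h0
        rw [tsum_eq_sum (s := {0, 1})]
        · rw [Finset.sum_pair (by norm_num)]
          simp [tri]
        · intro j hj
          have h1 : j ≠ 0 ∧ j ≠ 1 := by simpa using hj
          have : tri j 0 = 0 := by
            unfold tri
            rw [if_neg (by omega), if_neg (by omega)]
          rw [this]
          simp
      · rw [tsum_eq_sum (s := {i - 1, i, i + 1})]
        · rw [Finset.sum_insert (by simp; omega), Finset.sum_pair (by omega)]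
          have e1 : tri (i - 1) i = 1 := by
            unfold tri
            rw [if_neg (by omega), if_pos (by omega)]
          have e2 : tri i i = i + 2 := by simp [tri]
          have e3 : tri (i + 1) i = 1 := by simp [tri]
          rw [e1, e2, e3, if_neg h0]
          push_cast
          rw [one_mul, one_mul, add_assoc]
        · intro j hj
          have h1 : j ≠ i - 1 ∧ j ≠ i ∧ j ≠ i + 1 := by simpa using hj
          have : tri j i = 0 := by
            unfold tri
            rw [if_neg (by omega), if_neg (by omega)]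
          rw [this]
          simp
    have hSol : Sol (fun n i => (b n i).toReal) := by
      refine ⟨fun n i => ENNReal.toReal_nonneg, fun n i => ?_⟩
      show (b n i).toReal = _
      rw [hrec' n i]
      unfold op
      have h1 : ((i : ENNReal) + 2) * b (n + 1) i ≠ ⊤ :=
        ENNReal.mul_ne_top (by simp) (hbfin _ _)
      have h2 : (((i : ENNReal) + 2) * b (n + 1) i).toReal = ((i : ℝ) + 2) * (b (n + 1) i).toReal := by
        rw [ENNReal.toReal_mul, ENNReal.toReal_add (by simp) (by simp)]
        simp
      by_cases h0 : i = 0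
      · rw [if_pos h0, if_pos h0, ENNReal.toReal_add (by simp [h1]) (hbfin _ _),
          ENNReal.toReal_add (by simp) h1, h2]
        simp
      · rw [if_neg h0, if_neg h0, ENNReal.toReal_add (by simp [h1, hbfin]) (hbfin _ _),
          ENNReal.toReal_add (hbfin _ _) h1, h2]
    have hzero : ∀ n i, b n i = 0 := by
      intro n i
      have h1 : (b n i).toReal = 0 := sol_eq_zero i _ hSol n
      rcases (ENNReal.toReal_eq_zero_iff _).1 h1 with h2 | h2
      · exact h2
      · exact absurd h2 (hbfin _ _)
    apply hne
    rw [← Measure.measure_univ_eq_zero]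
    have hcov : (Set.univ : Set (PathSpace tri)) ⊆ ⋃ f : Edge tri, cyl 1 (fun _ => f) := by
      intro x _
      refine Set.mem_iUnion.2 ⟨x.1 0, fun i hi => ?_⟩
      have : i = 0 := by omega
      rw [this]
    have : Countable (Edge tri) := by
      unfold Edge
      infer_instance
    refine measure_mono_null hcov ((measure_iUnion_null_iff).2 fun f => ?_)
    rw [hend 0 _ (fun j hj => absurd hj (by omega))]
    exact hzero _ _
  refine ⟨tri_isIncidence, main, ?_⟩
  rintro ⟨μ, hμ, hp⟩
  exact main ⟨μ, hμ, fun n e _ _ => measure_lt_top μ _⟩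

end Pool.Agent.Results.MP_17dcfb_an.NoInvariantMeasure
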